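import Pool.Agent.W2helper30.AN.Lp
import Pool.Agent.W2helper30.AN.Ex

/-!
# The least primes in almost all classes, for all moduli near almost all members of sparse families `c₀ + κ ⌊U f(x₀ + 1 / i)⌋`

Method: Vinogradov's mean value method for the sums of `e(θ f(x₀ + 1 / i))` with a uniform saving, and the inequality of
Kusmin and Landau for the small frequencies; a discrete Fejer kernel for the passage to integer parts; the values are not
concentrated on short intervals. The passage from such exponential sums to the variance for almost all moduli is from the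
starting files (`Pool.Agent.Y958`, `Pool.Agent.Y885`), the one from the variance to the least primes is from
`Pool.Agent.R501.LP`.
-/

set_option autoImplicit false

namespace Pool.Agent.Results.MP_e1dc24_nt.AnalyticSparseModuli

open Finset Filter
open Pool.Agent.W2helper30.AN (Ord AlmostA Rg vl)

/-- `f` is real analytic at `x₀`, and `K ≥ 1` is the order of the zero of `f - f x₀` at `x₀` -/
def OrderAt (f : ℝ → ℝ) (x₀ : ℝ) (K : ℕ) : Prop :=
  AnalyticAt ℝ f x₀ ∧ 1 ≤ K ∧ (∀ j : ℕ, 1 ≤ j → j < K → iteratedDeriv j f x₀ = 0) ∧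
    iteratedDeriv K f x₀ ≠ 0

/-- the range of the parameters: `M ^ (K + δ₀) ≤ U ≤ exp ((log M) ^ (3 / 2 - ε₀))` -/
def InRange (K : ℕ) (δ₀ ε₀ : ℝ) (M : ℕ) (U : ℝ) : Prop :=
  (M : ℝ) ^ ((K : ℝ) + δ₀) ≤ U ∧ U ≤ Real.exp ((Real.log M) ^ (3 / 2 - ε₀))

open Classical in
/-- Almost all the integers `n = c₀ + κ ⌊U f(x₀ + 1 / i)⌋`, `M < i ≤ 2 M`, up to a proportion of at most `τ` of the `i`,
have the property `P`. -/
def Almost (f : ℝ → ℝ) (x₀ U : ℝ) (M : ℕ) (κ c₀ : ℤ) (τ : ℝ) (P : ℤ → Prop) : Prop :=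
  (((Ioc M (2 * M)).filter (fun i : ℕ => ¬ P (c₀ + κ * ⌊U * f (x₀ + 1 / i)⌋))).card : ℝ) ≤ τ * M

lemma almost_of {f : ℝ → ℝ} {x₀ U : ℝ} {M : ℕ} {κ c₀ : ℤ} {τ : ℝ} {P Q : ℤ → Prop}
    (h : AlmostA f x₀ U M κ c₀ τ P) (hPQ : ∀ n, P n → Q n) : Almost f x₀ U M κ c₀ τ Q := by
  have h1 := h.mono hPQ
  unfold AlmostA vl at h1
  unfold Almost
  convert h1

open Classical in
/-- The number of the `b` with `0 ≤ b < q` and `gcd(b, q) = 1` for which no prime `p ≤ y` is congruent to `b` modulo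
`q`; for `q ≥ 2` this is the number of the reduced classes with `p(b, q) > y`. -/
noncomputable def late (q : ℕ) (y : ℝ) : ℕ :=
  ((range q).filter (fun b => Nat.Coprime b q ∧ ∀ p : ℕ, p.Prime → (p : ℝ) ≤ y → ¬ p % q = b)).card

/-- `ψ(y; q, b) = ∑_{n ≤ y, n ≡ b mod q} Λ(n)` for `0 ≤ b < q`. -/
noncomputable def psiAP (y : ℝ) (q b : ℕ) : ℝ :=
  ∑ n ∈ (Icc 1 ⌊y⌋₊).filter (fun n => n % q = b), ArithmeticFunction.vonMangoldt n

open Classical in
/-- The number of the `b` with `0 ≤ b < q` and `gcd(b, q) = 1` with `|ψ(y; q, b) - y / φ(q)| ≥ η y / φ(q)`. -/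
noncomputable def off (q : ℕ) (y η : ℝ) : ℕ :=
  ((range q).filter (fun b => Nat.Coprime b q ∧ η * (y / (Nat.totient q : ℝ)) ≤
    |psiAP y q b - y / (Nat.totient q : ℝ)|)).card

/-- For all real `y = lam φ(q) log q` with `q ≤ y ≤ q (log q) ^ A`: the least prime `p(b, q)` is larger than `y` for at
most `(1 + ε) φ(q) / (1 + lam)` of the reduced classes `b`, and for all `η > 0` at most `(1 + ε) φ(q) / (η² lam)` of the
reduced classes `b` have `|ψ(y; q, b) - y / φ(q)| ≥ η y / φ(q)`. -/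
def Good (ε : ℝ) (A q : ℕ) : Prop :=
  ∀ y : ℝ, (q : ℝ) ≤ y → y ≤ q * Real.log q ^ A →
    (late q y : ℝ) * (1 + y / (Nat.totient q * Real.log q)) ≤ (1 + ε) * Nat.totient q ∧
    ∀ η : ℝ, 0 < η → (off q y η : ℝ) * (η ^ 2 * (y / (Nat.totient q * Real.log q))) ≤ (1 + ε) * Nat.totient q

/-- **(1)** Let `f` be real analytic at `x₀`, and let `K` be the order of `f - f x₀` at `x₀`; let `δ₀ > 0` and
`0 < ε₀ < 1 / 2`, and let `κ ≠ 0`, `A`, `W`, `u`, `a` and `0 < ε ≤ 1` be fixed. For all large `M`, all real `U` with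
`M ^ (K + δ₀) ≤ U ≤ exp ((log M) ^ (3 / 2 - ε₀))` and all integers `c₀` with
`|c₀ + κ U f(x₀)| ≤ (U / M ^ K) log ^ a U`, all the integers `n = c₀ + κ ⌊U f(x₀ + 1 / i)⌋`, `M < i ≤ 2 M`, with at most
`M / log ^ u U` exceptions, have the following property: for all moduli `q ≥ 1` with `|q - n| ≤ log ^ W U`, and for all real
`y = lam φ(q) log q` with `q ≤ y ≤ q (log q) ^ A`, one has `p(b, q) ≤ y` for all reduced classes `b` modulo `q` with at most
`(1 + ε) φ(q) / (1 + lam)` exceptions (for `y = q (log q) ^ A`: the bound of the question holds, with the constant `1`, for all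
the classes with at most `(1 + ε) φ(q) / (log q) ^ (A - 1)` exceptions), and for all `η > 0` one has
`|ψ(y; q, b) - y / φ(q)| < η y / φ(q)` with at most `(1 + ε) φ(q) / (η² lam)` exceptions. (The integers `n` are in an
interval of a length of the order of `U / M ^ K`; the condition on `c₀` means that this interval is not much farther from `0`
than it is long.)

**(2)** Part (1) applies to every function `f` which is real analytic at `x₀` and not constant near `x₀`, with a suitable `K`,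
and with `K = 1` if the derivative of `f` at `x₀` is not zero; for example, to `f x = x`, `x₀ = 0`: the integers
`c₀ + κ ⌊U / i⌋`. -/
theorem result :
    (∀ (f : ℝ → ℝ) (x₀ : ℝ) (K : ℕ), OrderAt f x₀ K → ∀ δ₀ ε₀ : ℝ, 0 < δ₀ → 0 < ε₀ → ε₀ < 1 / 2 →
      ∀ (κ : ℤ), κ ≠ 0 → ∀ (A W u a : ℕ) (ε : ℝ), 0 < ε → ε ≤ 1 → ∃ M₀ : ℕ, ∀ M : ℕ, M₀ ≤ M →
      ∀ U : ℝ, InRange K δ₀ ε₀ M U → ∀ c₀ : ℤ, |(c₀ : ℝ) + κ * (U * f x₀)| ≤ U / (M : ℝ) ^ K * Real.log U ^ a →
        Almost f x₀ U M κ c₀ (1 / Real.log U ^ u) (fun n => ∀ q : ℤ, |(q : ℝ) - n| ≤ Real.log U ^ W →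
          0 < q → Good ε A q.toNat)) ∧
    (∀ (f : ℝ → ℝ) (x₀ : ℝ), AnalyticAt ℝ f x₀ → (¬ ∀ᶠ x in nhds x₀, f x = f x₀) → ∃ K : ℕ, OrderAt f x₀ K) ∧
    (∀ (f : ℝ → ℝ) (x₀ : ℝ), AnalyticAt ℝ f x₀ → deriv f x₀ ≠ 0 → OrderAt f x₀ 1) ∧
    OrderAt (fun x => x) 0 1 := by
  refine ⟨fun f x₀ K hf δ₀ ε₀ hδ₀ hε₀ hε₀2 κ hκ A W u a ε hε hε1 => ?_,
    fun f x₀ h1 h2 => Pool.Agent.W2helper30.AN.ord_exists h1 h2,
    fun f x₀ h1 h2 => Pool.Agent.W2helper30.AN.ord_one h1 h2,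
    Pool.Agent.W2helper30.AN.ord_one (by fun_prop) (by simp)⟩
  have hf' : Ord f x₀ K := hf
  obtain ⟨M₀, h1⟩ := Pool.Agent.W2helper30.AN.an_lp hf' δ₀ ε₀ hδ₀ hε₀ hε₀2 κ hκ A W u a ε hε hε1
  exact ⟨M₀, fun M hM U hU c₀ hc₀ => almost_of (h1 M hM U ⟨hU.1, hU.2⟩ c₀ hc₀)
    fun n hn q hq hq0 y hy1 hy2 => hn q hq hq0 y hy1 hy2⟩

end Pool.Agent.Results.MP_e1dc24_nt.AnalyticSparseModuli
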