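import Pool.Agent.W2helper67.FD.Mult
import Pool.Agent.W2helper67.FD.Ex
import Pool.Agent.R501.LP1

/-!
# The least primes in almost all classes, for all the multiples of all the integers near all long truncations of almost all
real numbers, with respect to measures with Fourier decay

From Mathlib: `MeasureTheory.charFun μ ξ = ∫ exp (i ξ t) dμ(t)`, the characteristic function; `Measure.conv`, the
convolution; `μ.real s`, the measure of `s` as a real number (the outer measure if `s` is not measurable).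

Method: a discrete Fejer kernel gives the decay of the characteristic functions of the multiples of the integers
`c + κ ⌊Z t⌋` at all frequencies which are not near rational numbers with small denominators (`W2helper67.FD.Tl15`), so that
their large spectrum is thin. The passage from such distributions to the variance for all the multiples of almost all moduli
is from the starting files (`Pool.Agent.Y958`, `Pool.Agent.Y885`) and helper625 (`Pool.Agent.N625.PT`), the one from the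
variance to the least primes is from `Pool.Agent.R501.LP`.
-/

set_option autoImplicit false

namespace Pool.Agent.Results.MP_e1dc24_nt.FourierDecayModuli

open Finset Filter MeasureTheory

/-- The characteristic function of `μ` decays polynomially: `|∫ exp (i ξ t) dμ(t)| ≤ C₁ |ξ| ^ (-τ)` for `|ξ| ≥ 1`. -/
def FourierDecay (μ : Measure ℝ) (τ C₁ : ℝ) : Prop := ∀ ξ : ℝ, 1 ≤ |ξ| → ‖charFun μ ξ‖ ≤ C₁ * |ξ| ^ (-τ)

open Classical in
/-- The number of the `b` with `0 ≤ b < q` and `gcd(b, q) = 1` for which no prime `p ≤ y` is congruent to `b` modulo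
`q`; for `q ≥ 2` this is the number of the reduced classes with `p(b, q) > y`. -/
noncomputable def late (q : ℕ) (y : ℝ) : ℕ :=
  ((range q).filter (fun b => Nat.Coprime b q ∧ ∀ p : ℕ, p.Prime → (p : ℝ) ≤ y → ¬ p % q = b)).card

/-- `ψ(y; q, b) = ∑_{n ≤ y, n ≡ b mod q} Λ(n)` for `0 ≤ b < q`. -/
noncomputable def psiAP (y : ℝ) (q b : ℕ) : ℝ :=
  ∑ n ∈ (Icc 1 ⌊y⌋₊).filter (fun n => n % q = b), ArithmeticFunction.vonMangoldt n

open Classical in
/-- The number of the `b` with `0 ≤ b < q` and `gcd(b, q) = 1` with `|ψ(y; q, b) - y / φ(q)| ≥ η y / φ(q)`. -/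
noncomputable def off (q : ℕ) (y η : ℝ) : ℕ :=
  ((range q).filter (fun b => Nat.Coprime b q ∧ η * (y / (Nat.totient q : ℝ)) ≤
    |psiAP y q b - y / (Nat.totient q : ℝ)|)).card

/-- For all real `y = lam φ(q) log q` with `q ≤ y ≤ q (log q) ^ A`: the least prime `p(b, q)` is larger than `y` for at
most `(1 + ε) φ(q) / (1 + lam)` of the reduced classes `b`, and for all `η > 0` at most `(1 + ε) φ(q) / (η² lam)` of the
reduced classes `b` have `|ψ(y; q, b) - y / φ(q)| ≥ η y / φ(q)`. -/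
def Good (ε : ℝ) (A q : ℕ) : Prop :=
  ∀ y : ℝ, (q : ℝ) ≤ y → y ≤ q * Real.log q ^ A →
    (late q y : ℝ) * (1 + y / (Nat.totient q * Real.log q)) ≤ (1 + ε) * Nat.totient q ∧
    ∀ η : ℝ, 0 < η → (off q y η : ℝ) * (η ^ 2 * (y / (Nat.totient q * Real.log q))) ≤ (1 + ε) * Nat.totient q

/-- All the multiples `q = h m`, `1 ≤ h ≤ log ^ J Z`, of all the integers `m ≥ 1` with `|m - n| ≤ log ^ W Z` are `Good`. -/
def Near (ε : ℝ) (A J W : ℕ) (Z : ℝ) (n : ℤ) : Prop :=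
  ∀ m : ℕ, 1 ≤ m → |(m : ℝ) - n| ≤ Real.log Z ^ W → ∀ h : ℕ, 1 ≤ h → (h : ℝ) ≤ Real.log Z ^ J → Good ε A (h * m)

lemma good_iff (ε : ℝ) (A q : ℕ) : Good ε A q ↔ Pool.Agent.R501.LP.LpG ε A q := Iff.rfl

lemma good_of (ε : ℝ) (hε : 0 < ε) (hε1 : ε ≤ 1) (A : ℕ) : ∃ Q₀ : ℕ, ∀ Q : ℕ, Q₀ ≤ Q → (∀ x : ℝ, (Q : ℝ) ≤ x →
    x ≤ Q * Real.log Q ^ A →
    |Pool.Agent.TH894.PV.G x Q - x * Real.log Q| ≤ ε / 4 * (x * Real.log Q)) → Good ε A Q := by
  obtain ⟨Q₀, h⟩ := Pool.Agent.R501.LP.lpg_of_var A ε hε hε1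
  refine ⟨Q₀ + 2, fun Q hQ hvar => ?_⟩
  exact (good_iff ε A Q).2 ((Pool.Agent.R501.LP.lpg_iff ε A Q (by omega)).1 (h Q (by omega) hvar))

/-- **(1)** Let `τ > 0`, `C₁`, `κ ≠ 0`, `A`, `J`, `W`, `u`, `B` and `0 < ε ≤ 1` be fixed. For all large real `Z`, all probability
measures `μ` on `[0, 1)` with `|∫ exp (i ξ t) dμ(t)| ≤ C₁ |ξ| ^ (-τ)` for `|ξ| ≥ 1`, and all integers `c₀` with
`|c₀| ≤ B Z`, all real numbers `t` outside a set of `μ`-measure at most `1 / log ^ u Z` have the following property. Let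
`n = c₀ + κ ⌊Z t⌋`. For all the multiples `q = h m`, `1 ≤ h ≤ log ^ J Z`, of all the integers `m ≥ 1` with
`|m - n| ≤ log ^ W Z` (`h = 1`: for all the moduli near `n`), and for all real `y = lam φ(q) log q` with
`q ≤ y ≤ q (log q) ^ A`, one has `p(b, q) ≤ y` for all reduced classes `b` modulo `q` with at most
`(1 + ε) φ(q) / (1 + lam)` exceptions (for `y = q (log q) ^ A`: the bound of the question holds, with the constant `1`, for all
the classes with at most `(1 + ε) φ(q) / (log q) ^ (A - 1)` exceptions), and for all `η > 0` one has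
`|ψ(y; q, b) - y / φ(q)| < η y / φ(q)` with at most `(1 + ε) φ(q) / (η² lam)` exceptions.

**(2)** ALL but finitely many truncations of almost all real numbers. Let `μ` be as in (1), `κ ≠ 0`, let `a j` be real
numbers with `a j ≥ exp (j ^ δ)` for all large `j`, where `δ > 0` (for example, `a j = 2 ^ j` or `a j = 10 ^ j`), and `c j`
integers with `|c j| ≤ B a j`. For `μ`-almost all real numbers `t`, for all `A`, `J`, `W` and `ε > 0`: for all but finitely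
many `j`, the integer `n = c j + κ ⌊a j t⌋` has the property in (1) with `Z = a j`.

**(3)** The hypothesis holds with `τ = 1`, `C₁ = 2` for the uniform distributions on the intervals `[u, u + 1)` (for `u = 0`
the measure is on `[0, 1)`), and if it holds for `μ`, then it holds for the convolutions of `μ` and all probability measures
(with the same `τ` and `C₁`). -/
theorem result :
    (∀ (τ C₁ : ℝ), 0 < τ → ∀ (κ : ℤ), κ ≠ 0 → ∀ (A J W u B : ℕ) (ε : ℝ), 0 < ε → ε ≤ 1 → ∃ Z₀ : ℝ, ∀ Z : ℝ, Z₀ ≤ Z →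
      ∀ (μ : Measure ℝ) [IsProbabilityMeasure μ], FourierDecay μ τ C₁ → (∀ᵐ t ∂μ, 0 ≤ t ∧ t < 1) →
      ∀ c₀ : ℤ, |(c₀ : ℝ)| ≤ B * Z →
      μ.real {t | ¬ Near ε A J W Z (c₀ + κ * ⌊Z * t⌋)} ≤ 1 / Real.log Z ^ u) ∧
    (∀ (τ C₁ : ℝ), 0 < τ → ∀ (μ : Measure ℝ) [IsProbabilityMeasure μ], FourierDecay μ τ C₁ →
      (∀ᵐ t ∂μ, 0 ≤ t ∧ t < 1) → ∀ (κ : ℤ), κ ≠ 0 → ∀ (B : ℕ) (δ : ℝ), 0 < δ → ∀ (a : ℕ → ℝ) (c : ℕ → ℤ),
      (∀ᶠ j : ℕ in atTop, Real.exp ((j : ℝ) ^ δ) ≤ a j) → (∀ j, |(c j : ℝ)| ≤ B * a j) →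
      ∀ᵐ t ∂μ, ∀ (A J W : ℕ) (ε : ℝ), 0 < ε → ∀ᶠ j in atTop, Near ε A J W (a j) (c j + κ * ⌊a j * t⌋)) ∧
    (∀ u : ℝ, IsProbabilityMeasure (volume.restrict (Set.Ico u (u + 1))) ∧
      FourierDecay (volume.restrict (Set.Ico u (u + 1))) 1 2) ∧
    (∀ (μ ν : Measure ℝ) [IsProbabilityMeasure μ] [IsProbabilityMeasure ν] (τ C₁ : ℝ), FourierDecay μ τ C₁ →
      FourierDecay (μ.conv ν) τ C₁) := by
  classical
  have H1 : ∀ (τ C₁ : ℝ), 0 < τ → ∀ (κ : ℤ), κ ≠ 0 → ∀ (A J W u B : ℕ) (ε : ℝ), 0 < ε → ε ≤ 1 → ∃ Z₀ : ℝ, ∀ Z : ℝ, Z₀ ≤ Z →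
      ∀ (μ : Measure ℝ) [IsProbabilityMeasure μ], FourierDecay μ τ C₁ → (∀ᵐ t ∂μ, 0 ≤ t ∧ t < 1) →
      ∀ c₀ : ℤ, |(c₀ : ℝ)| ≤ B * Z →
      μ.real {t | ¬ Near ε A J W Z (c₀ + κ * ⌊Z * t⌋)} ≤ 1 / Real.log Z ^ u := by
    intro τ C₁ hτ κ hκ A J W u B ε hε hε1
    obtain ⟨Q₀, h0⟩ := good_of ε hε hε1 A
    exact Pool.Agent.W2helper67.FD.fd_var hτ C₁ κ hκ J W A u B (ε / 4) (by positivity) (by linarith) (Good ε A) Q₀ h0
  refine ⟨H1, ?_, fun u => ⟨Pool.Agent.W2helper67.FD.prob_unif u, Pool.Agent.W2helper67.FD.fdec_unif u⟩,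
    fun μ ν _ _ τ C₁ h => Pool.Agent.W2helper67.FD.fdec_conv μ ν h⟩
  intro τ C₁ hτ μ _ hμ hs κ hκ B δ hδ a c ha hc
  have hfix : ∀ᵐ t ∂μ, ∀ (A J W i : ℕ), ∀ᶠ j in atTop,
      Near (1 / ((i : ℝ) + 1)) A J W (a j) (c j + κ * ⌊a j * t⌋) := by
    refine ae_all_iff.2 fun A => ae_all_iff.2 fun J => ae_all_iff.2 fun W => ae_all_iff.2 fun i => ?_
    obtain ⟨u, hu⟩ := exists_nat_ge (2 / δ)
    have hi0 : (0 : ℝ) < 1 / ((i : ℝ) + 1) := by positivity
    have hi1 : 1 / ((i : ℝ) + 1) ≤ 1 := by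
      rw [div_le_one (by positivity)]
      linarith [(Nat.cast_nonneg i : (0 : ℝ) ≤ i)]
    obtain ⟨Z₀, h⟩ := H1 τ C₁ hτ κ hκ A J W u B _ hi0 hi1
    have hu2 : 2 ≤ δ * u := by
      rw [div_le_iff₀ hδ] at hu
      linarith
    have h1 := Pool.Agent.W2helper67.FD.borel_exp μ
      (fun j => {t | ¬ Near (1 / ((i : ℝ) + 1)) A J W (a j) (c j + κ * ⌊a j * t⌋)})
      a δ hδ ha u hu2 Z₀ (fun j hj => h (a j) hj μ hμ hs (c j) (hc j))
    filter_upwards [h1] with t ht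
    filter_upwards [ht] with j hj
    by_contra hcon
    exact hj hcon
  filter_upwards [hfix] with t ht A J W ε hε
  obtain ⟨i, hi⟩ := exists_nat_one_div_lt hε
  filter_upwards [ht A J W i] with j hj m hm1 hm h hh1 hh2 y hy1 hy2
  obtain ⟨g1, g2⟩ := hj m hm1 hm h hh1 hh2 y hy1 hy2
  have hφ : (0 : ℝ) ≤ Nat.totient (h * m) := Nat.cast_nonneg _
  have h3 : (1 + 1 / ((i : ℝ) + 1)) * (Nat.totient (h * m) : ℝ) ≤ (1 + ε) * Nat.totient (h * m) :=
    mul_le_mul_of_nonneg_right (by linarith) hφ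
  exact ⟨g1.trans h3, fun η hη => (g2 η hη).trans h3⟩

end Pool.Agent.Results.MP_e1dc24_nt.FourierDecayModuli
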