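import Pool.Agent.W2helper64.RS.Main2

set_option autoImplicit false

/-!
# Least elements of arithmetic progressions in the random sieve model of Banks, Ford and Tao

For every prime `p` a residue class `a p` modulo `p` is chosen uniformly and independently. The random
set `R` consists of the natural numbers `n ≥ e ^ 2` which avoid the class `a p` for every prime `p` with
`∏_(q ≤ p) (1 - 1 / q) ≥ 1 / log n`; this is the random sieve model for the primes of Banks, Ford and
Tao, in which the classes `0 mod p` of the sieve of Eratosthenes are replaced by random ones. A class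
`c mod m` is reduced if it avoids the deleted classes of the primes `p ∣ m`.

We prove that almost surely the bound asked for in the problem holds in this model with every exponent
`A > 2`, uniformly over all moduli `m` and all reduced classes, also for the least element above an
arbitrary `y`; and that it fails with every exponent `A < 2`, for every large modulus `m`, in at least
`m ^ (1 - ε)` reduced classes.
-/

namespace Pool.Agent.Results.MP_e1dc24_nt.RandomSieveLeast

open Filter MeasureTheory

/-- the product `V y = ∏_(p ≤ y, p prime) (1 - 1 / p)` -/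
noncomputable def V (y : ℕ) : ℝ := ∏ p ∈ (Finset.Icc 1 y).filter Nat.Prime, (1 - 1 / (p : ℝ))

/-- the random set: all `n ≥ e ^ 2` outside the chosen class `a p` for every prime `p` with
`V p ≥ 1 / log n` -/
def R (a : (p : Nat.Primes) → ZMod (p : ℕ)) : Set ℕ :=
  {n | Real.exp 2 ≤ n ∧ ∀ p : Nat.Primes, 1 ≤ V (p : ℕ) * Real.log n → ((n : ℕ) : ZMod (p : ℕ)) ≠ a p}

/-- the class `c mod m` is reduced: it avoids the chosen class of every prime dividing `m` -/
def Reduced (a : (p : Nat.Primes) → ZMod (p : ℕ)) (m c : ℕ) : Prop :=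
  ∀ p : Nat.Primes, (p : ℕ) ∣ m → ((c : ℕ) : ZMod (p : ℕ)) ≠ a p

/-- the chosen classes `a p`, `p` prime, are independent and uniform modulo `p` -/
noncomputable def law : Measure ((p : Nat.Primes) → ZMod (p : ℕ)) :=
  Measure.infinitePi fun p : Nat.Primes => ProbabilityTheory.uniformOn (Set.univ : Set (ZMod (p : ℕ)))

/-- Almost surely:
* for every `A > 2` there is `K` such that for every `m ≥ 2` every reduced class modulo `m` contains an
  element of `R` which is at most `K * m * (log m) ^ A`;
* more generally, for every `ε > 0` and all large `x`: for all `1 ≤ m ≤ x` and `y ≤ x`, every reduced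
  class modulo `m` contains an element of `R` in `(y, y + m * (log x) ^ (2 + ε)]`;
* for every `ε > 0` and all large `m`, in at least `m ^ (1 - ε)` reduced classes modulo `m` every element
  of `R` exceeds `m * (log m) ^ (2 - ε)`. -/
theorem result : ∀ᵐ a ∂law,
    (∀ A : ℝ, 2 < A → ∃ K : ℝ, 0 < K ∧ ∀ m c : ℕ, 2 ≤ m → Reduced a m c →
      ∃ n ∈ R a, n ≡ c [MOD m] ∧ (n : ℝ) ≤ K * m * Real.log m ^ A) ∧
    (∀ ε : ℝ, 0 < ε → ∀ᶠ x : ℕ in atTop, ∀ m c y : ℕ, 1 ≤ m → m ≤ x → y ≤ x → Reduced a m c →
      ∃ n ∈ R a, n ≡ c [MOD m] ∧ y < n ∧ (n : ℝ) ≤ y + m * Real.log x ^ (2 + ε)) ∧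
    (∀ ε : ℝ, 0 < ε → ∀ᶠ m : ℕ in atTop,
      (m : ℝ) ^ (1 - ε) ≤ (Set.ncard {c : ℕ | c < m ∧ Reduced a m c ∧
        ∀ n ∈ R a, n ≡ c [MOD m] → (m : ℝ) * Real.log m ^ (2 - ε) < n} : ℝ)) := by
  have h1 := Pool.Agent.W2helper64.RS.ae_up
  have h2 := Pool.Agent.W2helper64.RS.ae_low
  show ∀ᵐ a ∂Pool.Agent.W2helper64.RS.law, _
  filter_upwards [h1, h2] with a ha1 ha2
  refine ⟨fun A hA => ?_, fun ε hε => ?_, ha2⟩
  · obtain ⟨M0, hM0⟩ := eventually_atTop.mp (ha1 (A - 2) (by linarith))
    set M : ℕ := max M0 3 with hM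
    have hM3 : 3 ≤ M := le_max_right _ _
    have hlogM : 0 < Real.log M := Real.log_pos (by exact_mod_cast (by omega : 1 < M))
    have hl2 : 0 < Real.log 2 := Real.log_pos (by norm_num)
    have hlM2 : Real.log 2 ≤ Real.log M := Real.log_le_log (by norm_num) (by exact_mod_cast (by omega : 2 ≤ M))
    have hK1 : 1 ≤ (Real.log M / Real.log 2) ^ A :=
      Real.one_le_rpow ((one_le_div hl2).mpr hlM2) (by linarith)
    refine ⟨(Real.log M / Real.log 2) ^ A, by linarith, fun m c hm hr => ?_⟩
    have hm0 : (0 : ℝ) < m := by exact_mod_cast (by omega : 0 < m)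
    have hlm2 : Real.log 2 ≤ Real.log m := Real.log_le_log (by norm_num) (by exact_mod_cast hm)
    have hlm : 0 < Real.log m := hl2.trans_le hlm2
    rcases le_or_gt M m with h | h
    · obtain ⟨n, hnR, hnc, -, hn⟩ := hM0 m ((le_max_left _ _).trans h) m c 0 (by omega) le_rfl hr (by omega)
      refine ⟨n, hnR, hnc, hn.trans ?_⟩
      rw [Nat.cast_zero, zero_add, show 2 + (A - 2) = A by ring, mul_assoc]
      exact le_mul_of_one_le_left (by positivity) hK1
    · obtain ⟨n, hnR, hnc, -, hn⟩ := hM0 M (le_max_left _ _) m c 0 (by omega) h.le hr (by omega)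
      refine ⟨n, hnR, hnc, hn.trans ?_⟩
      rw [Nat.cast_zero, zero_add, show 2 + (A - 2) = A by ring, mul_comm ((Real.log M / Real.log 2) ^ A) (m : ℝ),
        mul_assoc]
      apply mul_le_mul_of_nonneg_left _ hm0.le
      rw [← Real.mul_rpow (by positivity) hlm.le]
      apply Real.rpow_le_rpow hlogM.le _ (by linarith)
      rw [div_mul_eq_mul_div, le_div_iff₀ hl2]
      exact mul_le_mul_of_nonneg_left hlm2 hlogM.le
  · filter_upwards [ha1 ε hε] with x hx m c y hm hmx hy hr
    exact hx m c y hm hmx hr hy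

end Pool.Agent.Results.MP_e1dc24_nt.RandomSieveLeast
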